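import Mathlib
import Pool.Agent.H57.Cong

namespace Pool.Agent.Results.MP_5c57f5_nt.Fails

open Finset Pool.Agent.H57.Cong

/-- the sum -/
def S (p : ℕ) : ℚ :=
  ∑ k ∈ range p, ((2 * k).choose k : ℚ) ^ 2 * ((3 * k).choose k : ℚ) / (-8640) ^ k

/-- The case p = 2 mod 3 fails. -/
theorem result : ¬ ∀ p : ℕ, p.Prime → 3 < p → p % 3 = 2 → Cong p 2 (S p) 0 := by
  intro h
  have := h 5 (by norm_num) (by norm_num) (by norm_num)
  refine not_cong (by norm_num) ?_ this
  simp only [S, Nat.choose_eq_descFactorial_div_factorial]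
  decide +kernel

end Pool.Agent.Results.MP_5c57f5_nt.Fails
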